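import Mathlib

open Filter Topology

namespace Pool.Agent.Results.MP_fdf3ca_an.SpaceableHD

/-- The open unit disc `𝔻 = {z : |z| < 1}`, as a type. -/
abbrev Disc : Type := Metric.ball (0:ℂ) 1

/-- `H(𝔻)`: the holomorphic functions on `𝔻`, a linear subspace of `C(𝔻, ℂ)`.  It carries the
subspace topology of the compact-open topology of `C(𝔻, ℂ)`, which is the topology of uniform
convergence on compact subsets of `𝔻`. -/
def HolD : Submodule ℂ C(Disc, ℂ) where
  carrier := {f | ∃ g : ℂ → ℂ, DifferentiableOn ℂ g (Metric.ball 0 1) ∧ ∀ z : Disc, f z = g z}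
  add_mem' := by
    rintro f₁ f₂ ⟨g₁, h₁, e₁⟩ ⟨g₂, h₂, e₂⟩
    exact ⟨g₁ + g₂, h₁.add h₂, fun z => by simp [e₁, e₂]⟩
  zero_mem' := ⟨0, differentiableOn_const 0, fun z => by simp⟩
  smul_mem' := by
    rintro c f ⟨g, h, e⟩
    exact ⟨c • g, h.const_smul c, fun z => by simp [e]⟩

/-- `f` is strongly annular: `limsup_{r → 1-} min_{|z| = r} |f(z)| = +∞`. -/
def StronglyAnnular (f : Disc → ℂ) : Prop :=
  limsup (fun r : ℝ => ⨅ z : {z : Disc // ‖(z : ℂ)‖ = r}, ((‖f z‖ : ℝ) : EReal)) (𝓝[<] (1 : ℝ)) = ⊤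

/-- extension by zero -/
noncomputable def ext (f : Disc → ℂ) (z : ℂ) : ℂ := by
  classical exact if h : z ∈ Metric.ball (0:ℂ) 1 then f ⟨z, h⟩ else 0

theorem ext_apply (f : Disc → ℂ) (z : ℂ) (h : z ∈ Metric.ball (0:ℂ) 1) : ext f z = f ⟨z, h⟩ := by
  simp [ext, h]

theorem ext_add (f g : Disc → ℂ) : ext (f + g) = ext f + ext g := by
  funext z; by_cases h : z ∈ Metric.ball (0:ℂ) 1 <;> simp [ext, h]

theorem ext_smul (c : ℂ) (f : Disc → ℂ) : ext (c • f) = c • ext f := by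
  funext z; by_cases h : z ∈ Metric.ball (0:ℂ) 1 <;> simp [ext, h]

theorem ext_diff (f : HolD) : DifferentiableOn ℂ (ext f.1) (Metric.ball 0 1) := by
  obtain ⟨g, hg, e⟩ := f.2
  exact hg.congr fun z hz => by rw [ext_apply _ _ hz]; exact e ⟨z, hz⟩

theorem ext_contDiffAt (f : HolD) (n : ℕ) : ContDiffAt ℂ n (ext f.1) 0 :=
  ((ext_diff f).analyticAt (Metric.ball_mem_nhds _ one_pos)).contDiffAt

/-- Taylor coefficient -/
noncomputable def coeffL (n : ℕ) : HolD →ₗ[ℂ] ℂ where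
  toFun f := (n.factorial : ℂ)⁻¹ * iteratedDeriv n (ext f.1) 0
  map_add' f g := by
    have : ext ((f + g : HolD).1) = ext f.1 + ext g.1 := ext_add _ _
    rw [this, iteratedDeriv_add (ext_contDiffAt f n) (ext_contDiffAt g n)]
    ring
  map_smul' c f := by
    have : ext ((c • f : HolD).1) = c • ext f.1 := ext_smul _ _
    rw [this, iteratedDeriv_const_smul_field]
    simp; ring

theorem hasSum_coeff (f : HolD) (z : ℂ) (hz : ‖z‖ < 1) :
    HasSum (fun n => coeffL n f * z ^ n) (ext f.1 z) := by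
  have h := Complex.hasSum_taylorSeries_on_ball (ext_diff f) (z := z) (by simpa using hz)
  have e : (fun n : ℕ => coeffL n f * z ^ n) = fun n : ℕ => ((n.factorial : ℂ))⁻¹ • (z - 0) ^ n • iteratedDeriv n (ext f.1) 0 := by
    funext n
    change (n.factorial : ℂ)⁻¹ * iteratedDeriv n (ext f.1) 0 * z ^ n = _
    simp only [sub_zero, smul_eq_mul]; ring
  rw [e]; exact h

theorem coeff_bound (f : HolD) (n : ℕ) (C : ℝ) (hC : ∀ z : Disc, ‖(z:ℂ)‖ = 1/2 → ‖f.1 z‖ ≤ C) :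
    ‖coeffL n f‖ ≤ 2 ^ n * C := by
  have h1 : DiffContOnCl ℂ (ext f.1) (Metric.ball 0 (1/2)) := by
    apply DifferentiableOn.diffContOnCl
    refine (ext_diff f).mono ?_
    rw [closure_ball _ (by norm_num)]
    exact Metric.closedBall_subset_ball (by norm_num)
  have h2 := Complex.norm_iteratedDeriv_le_of_forall_mem_sphere_norm_le n (by norm_num) h1 (C := C)
    (fun z hz => by
      have hz' : ‖z‖ = 1/2 := by simpa using hz
      have hz2 : z ∈ Metric.ball (0:ℂ) 1 := by simp [hz']; norm_num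
      rw [ext_apply _ _ hz2]
      exact hC ⟨z, hz2⟩ hz')
  have h3 : ‖coeffL n f‖ = (n.factorial : ℝ)⁻¹ * ‖iteratedDeriv n (ext f.1) 0‖ := by
    simp [coeffL]
  rw [h3]
  have h4 : (0:ℝ) < n.factorial := by positivity
  calc (n.factorial : ℝ)⁻¹ * ‖iteratedDeriv n (ext f.1) 0‖
      ≤ (n.factorial : ℝ)⁻¹ * (n.factorial * C / (1/2) ^ n) := by gcongr
    _ = 2 ^ n * C := by
      rw [one_div_pow]; field_simp

theorem isCompact_K : IsCompact {z : Disc | ‖(z:ℂ)‖ ≤ 1/2} := by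
  have h1 : IsCompact (Metric.closedBall (0:ℂ) (1/2)) := isCompact_closedBall _ _
  have h2 := (Topology.IsInducing.subtypeVal (t := Metric.ball (0:ℂ) 1)).isCompact_preimage_iff
    (K := Metric.closedBall (0:ℂ) (1/2)) (by
      rw [Subtype.range_coe_subtype]
      exact Metric.closedBall_subset_ball (by norm_num))
  have h3 := h2.2 h1
  convert h3 using 1
  ext z
  simp

theorem coeff_continuous (n : ℕ) : Continuous (coeffL n) := by
  have : IsTopologicalAddGroup HolD := inferInstance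
  have : AddMonoidHomClass (HolD →ₗ[ℂ] ℂ) HolD ℂ := inferInstance
  refine continuous_of_continuousAt_zero (coeffL n) ?_
  rw [Metric.continuousAt_iff']
  intro ε hε
  have h1 : {f : C(Disc, ℂ) | Set.MapsTo f {z : Disc | ‖(z:ℂ)‖ ≤ 1/2} (Metric.ball 0 (ε / 2 ^ (n+1)))} ∈ 𝓝 (0 : C(Disc, ℂ)) := by
    apply (ContinuousMap.isOpen_setOfPred_mapsTo isCompact_K Metric.isOpen_ball).mem_nhds
    intro z hz
    simp only [ContinuousMap.zero_apply]
    exact Metric.mem_ball_self (by positivity)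
  have h2 : Tendsto (fun f : HolD => f.1) (𝓝 0) (𝓝 (0 : C(Disc, ℂ))) :=
    continuous_subtype_val.tendsto' _ _ rfl
  filter_upwards [h2 h1] with f hf
  rw [map_zero, dist_zero_right]
  have h3 := coeff_bound f n (ε / 2 ^ (n+1)) (fun z hz => by
    have := hf (show z ∈ {z : Disc | ‖(z:ℂ)‖ ≤ 1/2} from hz.le)
    simpa using (mem_ball_zero_iff.1 this).le)
  refine lt_of_le_of_lt h3 ?_
  rw [pow_succ]
  have : 2 ^ n * (ε / (2 ^ n * 2)) = ε / 2 := by field_simp
  rw [this]; linarith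

/-- If `d` has radius of convergence at least one, its sum is a holomorphic function with Taylor
coefficients `d`. -/
theorem exists_hol (d : ℕ → ℂ) (hd : ∀ r : ℝ, 0 ≤ r → r < 1 → Summable fun n => ‖d n‖ * r ^ n) :
    ∃ f : HolD, (∀ n, coeffL n f = d n) ∧ ∀ z : Disc, HasSum (fun n => d n * (z:ℂ) ^ n) (f.1 z) := by
  set p : FormalMultilinearSeries ℂ ℂ ℂ := FormalMultilinearSeries.ofScalars ℂ d with hp
  have hrad : (1 : ENNReal) ≤ p.radius := by
    apply le_of_forall_lt_imp_le_of_dense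
    intro a ha
    lift a to NNReal using ha.ne_top
    apply FormalMultilinearSeries.le_radius_of_summable
    have h1 := hd a a.2 (by exact_mod_cast ha)
    simpa [hp, FormalMultilinearSeries.ofScalars_norm] using h1
  have hfps := p.hasFPowerSeriesOnBall (lt_of_lt_of_le one_pos hrad)
  have hball : ∀ z : ℂ, z ∈ Metric.ball (0:ℂ) 1 → z ∈ Metric.eball (0:ℂ) p.radius := by
    intro z hz
    refine Metric.eball_subset_eball hrad ?_
    rw [← ENNReal.coe_one, Metric.eball_coe]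
    exact_mod_cast hz
  have hdiff : DifferentiableOn ℂ p.sum (Metric.ball 0 1) :=
    hfps.differentiableOn.mono hball
  let fc : C(Disc, ℂ) := ⟨fun z => p.sum z, by
    exact hdiff.continuousOn.comp_continuous continuous_subtype_val (fun z => z.2)⟩
  let f : HolD := ⟨fc, p.sum, hdiff, fun z => rfl⟩
  have hext : ∀ z ∈ Metric.ball (0:ℂ) 1, ext f.1 z = p.sum z := fun z hz => ext_apply _ _ hz
  refine ⟨f, fun n => ?_, fun z => ?_⟩
  · have h1 : iteratedDeriv n (ext f.1) 0 = iteratedDeriv n p.sum 0 := by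
      apply Filter.EventuallyEq.iteratedDeriv_eq
      filter_upwards [Metric.ball_mem_nhds (0:ℂ) one_pos] with z hz using hext z hz
    have h2 := hfps.factorial_smul (1:ℂ) n
    rw [← iteratedDeriv_eq_iteratedFDeriv] at h2
    have h3 : (p n fun _ => (1:ℂ)) = d n := by
      simp [hp]
    rw [h3] at h2
    change (n.factorial : ℂ)⁻¹ * iteratedDeriv n (ext f.1) 0 = d n
    rw [h1, ← h2]
    have h4 : (n.factorial : ℂ) ≠ 0 := by exact_mod_cast n.factorial_ne_zero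
    rw [nsmul_eq_mul]
    field_simp
  · have h1 := hfps.hasSum (y := (z:ℂ)) (hball z z.2)
    simp only [zero_add] at h1
    have e : (fun n : ℕ => d n * (z:ℂ) ^ n) = fun n => (p n fun _ => (z:ℂ)) := by
      funext n
      rw [hp, FormalMultilinearSeries.ofScalars_apply_eq]; simp
    rw [e]; exact h1


theorem pow_growth (N : ℕ → ℕ) (hN0 : 1 ≤ N 0) (hN : ∀ m, 1024 * N m ≤ N (m+1)) :
    ∀ m, 1024 ^ m ≤ N m := by
  intro m
  induction m with
  | zero => simpa using hN0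
  | succ n ih =>
    calc 1024 ^ (n+1) = 1024 * 1024 ^ n := by ring
      _ ≤ 1024 * N n := by gcongr
      _ ≤ N (n+1) := hN n

theorem growth_shift (N : ℕ → ℕ) (hN : ∀ m, 1024 * N m ≤ N (m+1)) (k : ℕ) :
    ∀ j, 1024 ^ j * N k ≤ N (k + j) := by
  intro j
  induction j with
  | zero => simp
  | succ n ih =>
    calc 1024 ^ (n+1) * N k = 1024 * (1024 ^ n * N k) := by ring
      _ ≤ 1024 * N (k + n) := by gcongr
      _ ≤ N (k + (n+1)) := hN (k+n)

theorem geom_bound (k : ℕ) : ∑ m ∈ Finset.range k, (8:ℝ) ^ m ≤ 8 ^ k / 7 := by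
  induction k with
  | zero => simp
  | succ n ih =>
    rw [Finset.sum_range_succ]
    have : (8:ℝ) ^ (n+1) = 8 * 8 ^ n := by ring
    rw [this]
    have h8 : (0:ℝ) < 8 ^ n := by positivity
    linarith

theorem exists_max (φ : ℕ → ℝ) (hφ : Tendsto φ atTop (𝓝 0)) (m₀ : ℕ) (h0 : 0 < φ m₀) :
    ∃ k, ∀ m, φ m ≤ φ k := by
  have h1 : ∀ᶠ m in atTop, φ m < φ m₀ := hφ.eventually_lt_const h0
  obtain ⟨M, hM⟩ := eventually_atTop.1 h1
  obtain ⟨k, -, hk⟩ := Finset.exists_max_image (Finset.range (M + m₀ + 1)) φ ⟨m₀, by simp⟩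
  refine ⟨k, fun m => ?_⟩
  by_cases hm : m < M + m₀ + 1
  · exact hk m (by simpa using hm)
  · have := hM m (by omega)
    exact this.le.trans (hk m₀ (by simp))

/-- Key lemma on lacunary series with large coefficients. -/
theorem key_lemma (N : ℕ → ℕ) (hN0 : 1 ≤ N 0) (hN : ∀ m, 1024 * N m ≤ N (m+1))
    (b : ℕ → ℂ) (g : ℂ → ℂ)
    (hg : ∀ z : ℂ, ‖z‖ < 1 → HasSum (fun m => b m * z ^ (N m)) (g z))
    (hb : ∀ A : ℝ, ∃ m, A * 8 ^ m < ‖b m‖) (A : ℝ) (r₀ : ℝ) (hr₀ : r₀ < 1) :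
    ∃ ρ, r₀ < ρ ∧ ρ < 1 ∧ 0 < ρ ∧ ∀ z : ℂ, ‖z‖ = ρ → A ≤ ‖g z‖ := by
  -- reduce to `A > 0` and `r₀ ≥ 1/2`
  wlog hA : 0 < A generalizing A
  · obtain ⟨ρ, h1, h2, h3, h4⟩ := this 1 one_pos
    exact ⟨ρ, h1, h2, h3, fun z hz => by
      have := h4 z hz
      push Not at hA
      linarith⟩
  wlog hr : 1/2 ≤ r₀ generalizing r₀
  · obtain ⟨ρ, h1, h2, h3, h4⟩ := this (1/2) (by norm_num) le_rfl
    push Not at hr
    exact ⟨ρ, by linarith, h2, h3, h4⟩
  have hpow := pow_growth N hN0 hN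
  have hNpos : ∀ m, 0 < N m := fun m => lt_of_lt_of_le (by positivity) (hpow m)
  -- choose `K₀`
  obtain ⟨K₀, hK₀⟩ : ∃ K₀ : ℕ, 66 / ((K₀:ℝ) + 1) ≤ (1 - r₀) / 4 := by
    obtain ⟨K, hK⟩ := exists_nat_gt (66 * 4 / (1 - r₀))
    refine ⟨K, ?_⟩
    have h1 : 0 < 1 - r₀ := by linarith
    rw [div_le_div_iff₀ (by positivity) (by norm_num)]
    rw [div_lt_iff₀ h1] at hK
    nlinarith
  set B₀ : ℝ := ∑ m ∈ Finset.range (K₀ + 1), ‖b m‖ with hB₀
  have hB₀nn : 0 ≤ B₀ := Finset.sum_nonneg fun _ _ => norm_nonneg _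
  have hB₀le : ∀ m ≤ K₀, ‖b m‖ ≤ B₀ := fun m hm =>
    Finset.single_le_sum (f := fun m => ‖b m‖) (fun _ _ => norm_nonneg _) (by simp; omega)
  obtain ⟨m₀, hm₀⟩ := hb (8 * A + 2 * B₀)
  -- choose `r`
  set r : ℝ := max ((1 + r₀) / 2) (1 - 1 / (2 * N m₀)) with hrdef
  have hNm₀ : (1:ℝ) ≤ N m₀ := by exact_mod_cast hNpos m₀
  have hr1 : r < 1 := by
    rw [hrdef, max_lt_iff]
    refine ⟨by linarith, ?_⟩
    have : 0 < 1 / (2 * (N m₀ : ℝ)) := by positivity
    linarith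
  have hr2 : (1 + r₀) / 2 ≤ r := le_max_left _ _
  have hrpos : 0 < r := by linarith
  have hrN : 1 / 2 ≤ r ^ (N m₀) := by
    have h1 : 1 - 1 / (2 * (N m₀:ℝ)) ≤ r := le_max_right _ _
    have h2 : (0:ℝ) ≤ 1 - 1 / (2 * N m₀) := by
      have : 1 / (2 * (N m₀:ℝ)) ≤ 1 := by
        rw [div_le_one (by positivity)]; linarith
      linarith
    have h3 : 1 + (N m₀ : ℝ) * (-(1 / (2 * (N m₀:ℝ)))) ≤ (1 + (-(1 / (2 * (N m₀:ℝ))))) ^ (N m₀) := by
      apply one_add_mul_le_pow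
      have : 1 / (2 * (N m₀:ℝ)) ≤ 1 := by
        rw [div_le_one (by positivity)]; linarith
      linarith
    have h4 : 1 + (N m₀ : ℝ) * (-(1 / (2 * (N m₀:ℝ)))) = 1 / 2 := by
      field_simp
      norm_num
    rw [h4] at h3
    calc 1 / 2 ≤ (1 + (-(1 / (2 * (N m₀:ℝ))))) ^ (N m₀) := h3
      _ = (1 - 1 / (2 * (N m₀:ℝ))) ^ (N m₀) := by ring_nf
      _ ≤ r ^ (N m₀) := pow_le_pow_left₀ h2 h1 _
  -- the weighted terms
  set φ : ℕ → ℝ := fun m => ‖b m‖ * r ^ (N m) / 8 ^ m with hφ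
  have hterm : Tendsto (fun m => ‖b m‖ * r ^ (N m)) atTop (𝓝 0) := by
    have h1 := (hg (r:ℂ) (by simpa [abs_of_pos hrpos] using hr1)).summable.tendsto_atTop_zero.norm
    simpa [abs_of_pos hrpos] using h1
  have hφ0 : Tendsto φ atTop (𝓝 0) := by
    refine squeeze_zero (fun m => by positivity) (fun m => ?_) hterm
    apply div_le_self (by positivity)
    exact one_le_pow₀ (by norm_num)
  have hφm₀ : 4 * A + B₀ < φ m₀ := by
    have h8 : (0:ℝ) < 8 ^ m₀ := by positivity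
    rw [hφ]
    simp only
    rw [lt_div_iff₀ h8]
    nlinarith [norm_nonneg (b m₀)]
  obtain ⟨k, hk⟩ := exists_max φ hφ0 m₀ (by linarith)
  have hφk : 4 * A + B₀ < φ k := lt_of_lt_of_le hφm₀ (hk m₀)
  have hkK : K₀ < k := by
    by_contra hcon
    push Not at hcon
    have h1 : φ k ≤ ‖b k‖ := by
      rw [hφ]; simp only
      calc ‖b k‖ * r ^ (N k) / 8 ^ k ≤ ‖b k‖ * r ^ (N k) := by
            apply div_le_self (by positivity)
            exact one_le_pow₀ (by norm_num)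
        _ ≤ ‖b k‖ * 1 := by
            gcongr
            exact pow_le_one₀ hrpos.le hr1.le
        _ = ‖b k‖ := mul_one _
    have h2 := hB₀le k hcon
    linarith
  have hNk1 : (0:ℝ) < N (k+1) := by exact_mod_cast hNpos (k+1)
  set x : ℝ := 66 / N (k+1) with hx
  have hxpos : 0 < x := by positivity
  have hxsmall : x ≤ (1 - r₀) / 4 := by
    refine le_trans ?_ hK₀
    rw [hx]
    have h1 : (K₀:ℝ) + 1 ≤ N (k+1) := by
      have h2 : K₀ + 1 ≤ N (k+1) := by
        have h3 : k + 1 < 1024 ^ (k+1) := Nat.lt_pow_self (by norm_num)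
        have := hpow (k+1)
        omega
      exact_mod_cast h2
    gcongr
  have hxNk : x * N k ≤ 1 / 2 := by
    have h1 : (1024:ℝ) * N k ≤ N (k+1) := by exact_mod_cast hN k
    rw [hx, div_mul_eq_mul_div, div_le_iff₀ hNk1]
    linarith
  have hpowk : (1 + x) ^ (N k) ≤ 2 := by
    calc (1 + x) ^ (N k) ≤ (Real.exp x) ^ (N k) := by
          gcongr
          linarith [Real.add_one_le_exp x]
      _ = Real.exp (x * N k) := by rw [← Real.exp_nat_mul]; ring_nf
      _ ≤ Real.exp (1 / 2) := by gcongr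
      _ ≤ 2 := by
        have h1 : Real.exp (1/2) * Real.exp (1/2) = Real.exp 1 := by
          rw [← Real.exp_add]; norm_num
        have h2 := Real.exp_one_lt_d9
        nlinarith [Real.exp_pos (1/2 : ℝ)]
  set ρ : ℝ := r / (1 + x) with hρ
  have h1x : 0 < 1 + x := by linarith
  have hρpos : 0 < ρ := by positivity
  have hρr : ρ ≤ r := by
    rw [hρ]; apply div_le_self hrpos.le; linarith
  have hρ1 : ρ < 1 := lt_of_le_of_lt hρr hr1
  have hρ0 : r₀ < ρ := by
    rw [hρ, lt_div_iff₀ h1x]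
    nlinarith
  have hrρ : r = ρ * (1 + x) := by rw [hρ]; field_simp
  -- main term
  set T : ℝ := ‖b k‖ * ρ ^ (N k) with hT
  have hTnn : 0 ≤ T := by positivity
  have hmax : ∀ m, ‖b m‖ * r ^ (N m) ≤ 8 ^ m / 8 ^ k * (‖b k‖ * r ^ (N k)) := by
    intro m
    have h1 := hk m
    rw [hφ] at h1
    simp only at h1
    rw [div_le_div_iff₀ (by positivity) (by positivity)] at h1
    rw [div_mul_eq_mul_div, le_div_iff₀ (by positivity)]
    linarith
  have hTr : ‖b k‖ * r ^ (N k) ≤ 2 * T := by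
    calc ‖b k‖ * r ^ (N k) = ‖b k‖ * (ρ ^ (N k) * (1 + x) ^ (N k)) := by rw [hrρ, mul_pow]
      _ ≤ ‖b k‖ * (ρ ^ (N k) * 2) := by gcongr
      _ = 2 * T := by rw [hT]; ring
  have hlow : ∀ m, ‖b m‖ * ρ ^ (N m) ≤ 8 ^ m / 8 ^ k * (2 * T) := by
    intro m
    calc ‖b m‖ * ρ ^ (N m) ≤ ‖b m‖ * r ^ (N m) := by gcongr
      _ ≤ 8 ^ m / 8 ^ k * (‖b k‖ * r ^ (N k)) := hmax m
      _ ≤ _ := by gcongr
  have hhigh : ∀ j, ‖b (j + (k+1))‖ * ρ ^ (N (j + (k+1))) ≤ T * (1/8) * (1/8) ^ j := by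
    intro j
    set m := j + (k+1) with hm
    have hNm : (1024:ℝ) ^ j * N (k+1) ≤ N m := by
      have := growth_shift N hN (k+1) j
      rw [hm, add_comm j (k+1)]
      exact_mod_cast this
    have hNkm : N k ≤ N m := by
      have h1 : 1024 ^ (j+1) * N k ≤ N (k + (j+1)) := growth_shift N hN k (j+1)
      have h2 : N m = N (k + (j+1)) := by rw [hm]; congr 1; ring
      rw [h2]
      refine le_trans ?_ h1
      exact Nat.le_mul_of_pos_left _ (by positivity)
    have hNk_small : (N k : ℝ) * x ≤ 1/2 := by linarith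
    have hpw : (64:ℝ) ^ (j+1) ≤ (1 + x) ^ (N m - N k) := by
      have h1 : 1 + ((N m - N k : ℕ) : ℝ) * x ≤ (1 + x) ^ (N m - N k) :=
        one_add_mul_le_pow (by linarith) _
      refine le_trans ?_ h1
      rw [Nat.cast_sub hNkm, sub_mul]
      have h2 : (1024:ℝ)^j * 66 ≤ N m * x := by
        calc (1024:ℝ)^j * 66 = (1024 ^ j * N (k+1)) * x := by
              rw [hx]; field_simp
          _ ≤ N m * x := by gcongr
      have h3 : (64:ℝ) ^ (j+1) ≤ 1024 ^ j * 64 := by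
        rw [pow_succ]
        gcongr
        norm_num
      have h4 : (1:ℝ) ≤ 1024 ^ j := one_le_pow₀ (by norm_num)
      nlinarith
    have h5 : ‖b m‖ * r ^ (N m) ≤ 8 ^ m / 8 ^ k * (‖b k‖ * r ^ (N k)) := hmax m
    have h6 : (8:ℝ) ^ m / 8 ^ k = 8 ^ (j+1) := by
      rw [div_eq_iff (by positivity), ← pow_add]; congr 1; rw [hm]; ring
    rw [h6] at h5
    -- r = ρ (1+x)
    rw [hrρ, mul_pow, mul_pow] at h5
    have h7 : (1 + x) ^ (N m) = (1 + x) ^ (N m - N k) * (1+x) ^ (N k) := by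
      rw [← pow_add]; congr 1; omega
    rw [h7] at h5
    have h8 : (0:ℝ) < (1+x) ^ (N k) := by positivity
    have h9 : ‖b m‖ * ρ ^ (N m) * (1 + x) ^ (N m - N k) ≤ 8 ^ (j+1) * T := by
      have : (‖b m‖ * ρ ^ (N m) * (1 + x) ^ (N m - N k)) * (1+x)^(N k) ≤ (8 ^ (j+1) * T) * (1+x)^(N k) := by
        rw [hT]
        linarith
      exact le_of_mul_le_mul_right this h8
    have h10 : ‖b m‖ * ρ ^ (N m) * 64 ^ (j+1) ≤ 8 ^ (j+1) * T := by
      refine le_trans ?_ h9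
      gcongr
    have h11 : (64:ℝ) ^ (j+1) = 8 ^ (j+1) * 8 ^ (j+1) := by
      rw [← mul_pow]; norm_num
    rw [h11] at h10
    have h12 : (0:ℝ) < 8 ^ (j+1) := by positivity
    have h13 : ‖b m‖ * ρ ^ (N m) * 8 ^ (j+1) ≤ T := by
      have : (‖b m‖ * ρ ^ (N m) * 8 ^ (j+1)) * 8 ^ (j+1) ≤ T * 8 ^ (j+1) := by linarith
      exact le_of_mul_le_mul_right this h12
    have h14 : T * (1/8) * (1/8) ^ j = T / 8 ^ (j+1) := by
      rw [pow_succ, one_div_pow]; field_simp
    rw [h14, le_div_iff₀ h12]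
    exact h13
  have hTA : 2 * A ≤ T := by
    have h1 : φ k * 8 ^ k = ‖b k‖ * r ^ (N k) := by
      rw [hφ]; simp only
      field_simp
    have h2 : (1:ℝ) ≤ 8 ^ k := one_le_pow₀ (by norm_num)
    nlinarith
  refine ⟨ρ, hρ0, hρ1, hρpos, fun z hz => ?_⟩
  have hsum := hg z (by rw [hz]; exact hρ1)
  have hnorm : ∀ m, ‖b m * z ^ (N m)‖ = ‖b m‖ * ρ ^ (N m) := by
    intro m; rw [norm_mul, norm_pow, hz]
  have hgz : g z = (∑ m ∈ Finset.range k, b m * z ^ (N m)) + b k * z ^ (N k)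
      + ∑' j, b (j + (k+1)) * z ^ (N (j + (k+1))) := by
    rw [← hsum.tsum_eq, ← hsum.summable.sum_add_tsum_nat_add (k+1), Finset.sum_range_succ]
  have hS1 : ‖∑ m ∈ Finset.range k, b m * z ^ (N m)‖ ≤ 2 * T / 7 := by
    calc ‖∑ m ∈ Finset.range k, b m * z ^ (N m)‖ ≤ ∑ m ∈ Finset.range k, ‖b m * z ^ (N m)‖ := norm_sum_le _ _
      _ ≤ ∑ m ∈ Finset.range k, 8 ^ m * (2 * T / 8 ^ k) := by
          apply Finset.sum_le_sum
          intro m _
          rw [hnorm]
          refine le_trans (hlow m) (le_of_eq ?_)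
          field_simp
      _ = (∑ m ∈ Finset.range k, 8 ^ m) * (2 * T / 8 ^ k) := by rw [Finset.sum_mul]
      _ ≤ (8 ^ k / 7) * (2 * T / 8 ^ k) := by
          gcongr
          exact geom_bound k
      _ = 2 * T / 7 := by field_simp
  have hS2 : ‖∑' j, b (j + (k+1)) * z ^ (N (j + (k+1)))‖ ≤ T / 7 := by
    have h1 : HasSum (fun j : ℕ => T * (1/8) * (1/8:ℝ) ^ j) (T * (1/8) * (1 - 1/8)⁻¹) :=
      (hasSum_geometric_of_lt_one (by norm_num) (by norm_num)).mul_left _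
    have h2 : T * (1/8) * (1 - 1/8)⁻¹ = T / 7 := by norm_num; ring
    rw [h2] at h1
    exact tsum_of_norm_bounded h1 (fun j => by rw [hnorm]; exact hhigh j)
  have hfin : T - 2 * T / 7 - T / 7 ≤ ‖g z‖ := by
    have h1 : b k * z ^ (N k) = g z - (∑ m ∈ Finset.range k, b m * z ^ (N m))
        - ∑' j, b (j + (k+1)) * z ^ (N (j + (k+1))) := by rw [hgz]; ring
    have h2 : T = ‖b k * z ^ (N k)‖ := by rw [hnorm]
    have h3 : ‖b k * z ^ (N k)‖ ≤ ‖g z‖ + ‖∑ m ∈ Finset.range k, b m * z ^ (N m)‖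
        + ‖∑' j, b (j + (k+1)) * z ^ (N (j + (k+1)))‖ := by
      rw [h1]
      refine (norm_sub_le _ _).trans ?_
      gcongr
      exact norm_sub_le _ _
    linarith
  linarith


/-- the closed subspace -/
noncomputable def MSub (N : ℕ → ℕ) : Submodule ℂ HolD where
  carrier := {f | (∀ n, n ∉ Set.range N → coeffL n f = 0) ∧
    ∀ i k, (16:ℂ) ^ (Nat.pair i 0) * coeffL (N (Nat.pair i k)) f
      = 16 ^ (Nat.pair i k) * coeffL (N (Nat.pair i 0)) f}
  add_mem' := by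
    rintro f g ⟨hf1, hf2⟩ ⟨hg1, hg2⟩
    refine ⟨fun n hn => by rw [map_add, hf1 n hn, hg1 n hn, add_zero], fun i k => ?_⟩
    rw [map_add, map_add, mul_add, mul_add, hf2, hg2]
  zero_mem' := ⟨fun n _ => map_zero _, fun i k => by simp⟩
  smul_mem' := by
    rintro c f ⟨hf1, hf2⟩
    refine ⟨fun n hn => by rw [map_smul, hf1 n hn, smul_zero], fun i k => ?_⟩
    rw [map_smul, map_smul, smul_eq_mul, smul_eq_mul, mul_left_comm, hf2, mul_left_comm]

theorem MSub_closed (N : ℕ → ℕ) : IsClosed (MSub N : Set HolD) := by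
  have h1 : (MSub N : Set HolD) = (⋂ n ∈ (Set.range N)ᶜ, {f : HolD | coeffL n f = 0}) ∩
      ⋂ i, ⋂ k, {f : HolD | (16:ℂ) ^ (Nat.pair i 0) * coeffL (N (Nat.pair i k)) f
      = 16 ^ (Nat.pair i k) * coeffL (N (Nat.pair i 0)) f} := by
    ext f
    simp only [Set.mem_inter_iff, Set.mem_iInter, Set.mem_ofPred_eq, Set.mem_compl_iff]
    exact Iff.rfl
  rw [h1]
  refine IsClosed.inter ?_ ?_
  · exact isClosed_biInter fun n _ => isClosed_eq (coeff_continuous n) continuous_const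
  · exact isClosed_iInter fun i => isClosed_iInter fun k =>
      isClosed_eq (continuous_const.mul (coeff_continuous _)) (continuous_const.mul (coeff_continuous _))

theorem N_inj (N : ℕ → ℕ) (hN0 : 1 ≤ N 0) (hN : ∀ m, 1024 * N m ≤ N (m+1)) :
    Function.Injective N := by
  have hpos : ∀ m, 1 ≤ N m := fun m => le_trans (Nat.one_le_pow _ _ (by norm_num)) (pow_growth N hN0 hN m)
  exact (strictMono_nat_of_lt_succ fun m => by
    have := hN m
    have := hpos m
    omega).injective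

theorem pair_inj (i : ℕ) : Function.Injective (Nat.pair i) := by
  intro k l h
  exact (Nat.pair_eq_pair.1 h).2

theorem exists_elt (N : ℕ → ℕ) (hN0 : 1 ≤ N 0) (hN : ∀ m, 1024 * N m ≤ N (m+1)) (i : ℕ) :
    ∃ f : HolD, f ∈ MSub N ∧ (∀ k, coeffL (N (Nat.pair i k)) f = 16 ^ (Nat.pair i k)) ∧
      (∀ l, l ≠ i → ∀ k, coeffL (N (Nat.pair l k)) f = 0) ∧
      (∀ z : Disc, HasSum (fun k => (16:ℂ) ^ (Nat.pair i k) * (z:ℂ) ^ (N (Nat.pair i k))) (f.1 z)) := by
  have hinj : Function.Injective (fun k => N (Nat.pair i k)) :=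
    (N_inj N hN0 hN).comp (pair_inj i)
  set d : ℕ → ℂ := Function.extend (fun k => N (Nat.pair i k)) (fun k => (16:ℂ) ^ (Nat.pair i k)) 0 with hd
  have hd1 : ∀ k, d (N (Nat.pair i k)) = 16 ^ (Nat.pair i k) := fun k => hinj.extend_apply _ _ k
  have hd0 : ∀ n, n ∉ Set.range (fun k => N (Nat.pair i k)) → d n = 0 := fun n hn =>
    Function.extend_apply' _ _ _ (fun ⟨k, hk⟩ => hn ⟨k, hk⟩)
  obtain ⟨f, hf1, hf2⟩ := exists_hol d (by
    intro r hr0 hr1
    have hsup : ∀ n, n ∉ Set.range (fun k => N (Nat.pair i k)) → ‖d n‖ * r ^ n = 0 := by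
      intro n hn; rw [hd0 n hn]; simp
    rw [← hinj.summable_iff hsup]
    have h1 : Summable (fun n : ℕ => ((n:ℝ) ^ 1 * r ^ n)) :=
      summable_pow_mul_geometric_of_norm_lt_one 1 (by rw [Real.norm_of_nonneg hr0]; exact hr1)
    have h2 := h1.comp_injective hinj
    refine Summable.of_nonneg_of_le (fun k => mul_nonneg (norm_nonneg _) (pow_nonneg hr0 _)) (fun k => ?_) h2
    simp only [Function.comp_apply, hd1, norm_pow, pow_one]
    gcongr
    have h3 := pow_growth N hN0 hN (Nat.pair i k)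
    calc ‖(16:ℂ)‖ ^ (Nat.pair i k) = (16:ℝ) ^ (Nat.pair i k) := by simp
      _ ≤ 1024 ^ (Nat.pair i k) := by gcongr; norm_num
      _ ≤ N (Nat.pair i k) := by exact_mod_cast h3)
  refine ⟨f, ⟨fun n hn => ?_, fun l k => ?_⟩, fun k => ?_, fun l hl k => ?_, fun z => ?_⟩
  · rw [hf1]
    exact hd0 n fun ⟨k, hk⟩ => hn ⟨_, hk⟩
  · rw [hf1, hf1]
    by_cases hl : l = i
    · subst hl; rw [hd1, hd1]; ring
    · have h0 : ∀ k, d (N (Nat.pair l k)) = 0 := by
        intro k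
        apply hd0
        rintro ⟨k', hk'⟩
        have := N_inj N hN0 hN hk'
        exact hl (Nat.pair_eq_pair.1 this).1.symm
      rw [h0, h0]; simp
  · rw [hf1, hd1]
  · rw [hf1]
    apply hd0
    rintro ⟨k', hk'⟩
    have := N_inj N hN0 hN hk'
    exact hl (Nat.pair_eq_pair.1 this).1.symm
  · have h1 := hf2 z
    rw [← hinj.hasSum_iff (fun n hn => by rw [hd0 n hn]; simp)] at h1
    convert h1 using 2 with k
    simp [hd1]

theorem not_finite_of_biorthogonal {V : Type*} [AddCommGroup V] [Module ℂ V] (f : ℕ → V)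
    (ψ : ℕ → V →ₗ[ℂ] ℂ) (h1 : ∀ i, ψ i (f i) ≠ 0) (h2 : ∀ i j, j ≠ i → ψ i (f j) = 0) :
    ¬ FiniteDimensional ℂ V := by
  intro hfin
  have hli : LinearIndependent ℂ f := by
    rw [linearIndependent_iff']
    intro s g hg i hi
    have h3 := congrArg (ψ i) hg
    simp only [map_sum, map_smul, smul_eq_mul, map_zero] at h3
    rw [Finset.sum_eq_single i] at h3
    · exact (mul_eq_zero.1 h3).resolve_right (h1 i)
    · intro j _ hj
      rw [h2 i j hj]; simp
    · intro h; exact absurd hi h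
  have := hli.finite
  exact not_finite ℕ

theorem MSub_infinite (N : ℕ → ℕ) (hN0 : 1 ≤ N 0) (hN : ∀ m, 1024 * N m ≤ N (m+1)) :
    ¬ FiniteDimensional ℂ ((MSub N).map HolD.subtype) := by
  choose f hfM hf1 hf2 _ using exists_elt N hN0 hN
  have hle : (MSub N).map HolD.subtype ≤ HolD := Submodule.map_subtype_le _ _
  apply not_finite_of_biorthogonal
    (V := ((MSub N).map HolD.subtype)) (fun i => ⟨(f i).1, ⟨f i, hfM i, rfl⟩⟩)
    (fun i => (coeffL (N (Nat.pair i 0))).comp (Submodule.inclusion hle))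
  · intro i
    change coeffL (N (Nat.pair i 0)) (f i) ≠ 0
    rw [hf1]
    exact pow_ne_zero _ (by norm_num)
  · intro i j hj
    exact hf2 j i hj.symm 0

theorem strongly_annular_of_mem (N : ℕ → ℕ) (hN0 : 1 ≤ N 0) (hN : ∀ m, 1024 * N m ≤ N (m+1))
    (f : HolD) (hf : f ∈ MSub N) (hne : f ≠ 0) : StronglyAnnular f.1 := by
  obtain ⟨h0, h1⟩ := hf
  have hinj := N_inj N hN0 hN
  -- power series along `N`
  have hsum : ∀ z : ℂ, ‖z‖ < 1 → HasSum (fun m => coeffL (N m) f * z ^ (N m)) (ext f.1 z) := by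
    intro z hz
    have h2 := hasSum_coeff f z hz
    rw [← hinj.hasSum_iff (fun n hn => by rw [h0 n hn]; simp)] at h2
    exact h2
  -- some coefficient is nonzero
  obtain ⟨m, hm⟩ : ∃ m, coeffL (N m) f ≠ 0 := by
    by_contra hcon
    push Not at hcon
    apply hne
    ext z
    have h2 := hsum z (mem_ball_zero_iff.1 z.2)
    simp only [hcon, zero_mul] at h2
    have h3 := h2.unique hasSum_zero
    rw [ext_apply _ _ z.2] at h3
    simpa using h3
  set i := m.unpair.1 with hi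
  have hmi : m = Nat.pair i m.unpair.2 := by rw [hi, Nat.pair_unpair]
  have hbase : coeffL (N (Nat.pair i 0)) f ≠ 0 := by
    intro hb
    have h2 := h1 i m.unpair.2
    rw [hb, mul_zero, ← hmi] at h2
    exact hm ((mul_eq_zero.1 h2).resolve_left (pow_ne_zero _ (by norm_num)))
  set c : ℝ := ‖coeffL (N (Nat.pair i 0)) f‖ / 16 ^ (Nat.pair i 0) with hc
  have hcpos : 0 < c := by positivity
  have hnorm : ∀ k, ‖coeffL (N (Nat.pair i k)) f‖ = c * 16 ^ (Nat.pair i k) := by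
    intro k
    have h2 := congrArg (fun x => ‖x‖) (h1 i k)
    simp only [norm_mul, norm_pow] at h2
    have h16 : ‖(16:ℂ)‖ = 16 := by simp
    rw [h16] at h2
    rw [hc]
    field_simp
    linarith
  have hb : ∀ A : ℝ, ∃ m, A * 8 ^ m < ‖coeffL (N m) f‖ := by
    intro A
    obtain ⟨k, hk⟩ := pow_unbounded_of_one_lt (A / c) (one_lt_two : (1:ℝ) < 2)
    refine ⟨Nat.pair i k, ?_⟩
    rw [hnorm]
    have h2 : (16:ℝ) ^ (Nat.pair i k) = 2 ^ (Nat.pair i k) * 8 ^ (Nat.pair i k) := by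
      rw [← mul_pow]; norm_num
    rw [h2, ← mul_assoc]
    have h3 : (2:ℝ) ^ k ≤ 2 ^ (Nat.pair i k) :=
      pow_le_pow_right₀ (by norm_num) (Nat.right_le_pair i k)
    have h4 : A < c * 2 ^ (Nat.pair i k) := by
      rw [div_lt_iff₀ hcpos] at hk
      nlinarith
    have h5 : (0:ℝ) < 8 ^ (Nat.pair i k) := by positivity
    nlinarith
  have hkey := key_lemma N hN0 hN (fun m => coeffL (N m) f) (ext f.1) hsum hb
  -- conclusion
  unfold StronglyAnnular
  rw [EReal.eq_top_iff_forall_lt]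
  intro A
  have hfreq : ∃ᶠ r in 𝓝[<] (1:ℝ), ((A + 1 : ℝ) : EReal) ≤
      ⨅ z : {z : Disc // ‖(z : ℂ)‖ = r}, ((‖f.1 z‖ : ℝ) : EReal) := by
    rw [Filter.frequently_iff]
    intro U hU
    obtain ⟨l, hl, hlU⟩ := mem_nhdsLT_iff_exists_Ioo_subset.1 hU
    obtain ⟨ρ, h2, h3, h4, h5⟩ := hkey (A + 1) l hl
    refine ⟨ρ, hlU ⟨h2, h3⟩, ?_⟩
    refine le_iInf fun z => ?_
    have h6 := h5 z.1 z.2
    rw [ext_apply _ _ z.1.2] at h6
    exact_mod_cast h6
  have hle := Filter.le_limsup_of_frequently_le hfreq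
  refine lt_of_lt_of_le ?_ hle
  exact_mod_cast (by linarith : A < A + 1)

/-- **Q1.** The set of strongly annular functions is spaceable in `H(𝔻)`: there is a linear subspace
`M` of `H(𝔻)`, closed in `H(𝔻)` and infinite-dimensional, all of whose nonzero elements are strongly
annular. -/
theorem result :
    ∃ M : Submodule ℂ C(Disc, ℂ), M ≤ HolD ∧ IsClosed {f : HolD | (f : C(Disc, ℂ)) ∈ M} ∧
      ¬ FiniteDimensional ℂ M ∧ ∀ f ∈ M, f ≠ 0 → StronglyAnnular f := by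
  have hN0 : 1 ≤ (fun m : ℕ => 1024 ^ m) 0 := by norm_num
  have hN : ∀ m : ℕ, 1024 * (fun m : ℕ => 1024 ^ m) m ≤ (fun m : ℕ => 1024 ^ m) (m+1) := by
    intro m; simp only; rw [pow_succ]; omega
  refine ⟨(MSub fun m : ℕ => 1024 ^ m).map HolD.subtype, ?_, ?_, MSub_infinite _ hN0 hN, ?_⟩
  · exact Submodule.map_subtype_le _ _
  · have h1 : {f : HolD | (f : C(Disc, ℂ)) ∈ (MSub fun m : ℕ => 1024 ^ m).map HolD.subtype}
        = (MSub fun m : ℕ => 1024 ^ m : Set HolD) := by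
      ext f
      constructor
      · rintro ⟨g, hg, hgf⟩
        have : g = f := Subtype.ext hgf
        rwa [← this]
      · intro hf
        exact ⟨f, hf, rfl⟩
    rw [h1]
    exact MSub_closed _
  · rintro _ ⟨f, hf, rfl⟩ hne
    exact strongly_annular_of_mem _ hN0 hN f hf (fun h => hne (by rw [h]; rfl))

end Pool.Agent.Results.MP_fdf3ca_an.SpaceableHD
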